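import Pool.Agent.Y437.AX.AX1
import Pool.Agent.Y151.AX2

set_option autoImplicit false

namespace Pool.Agent.Results.MP_8db76d_al.AnyNumberOfComponents

open Pool.Agent.H198R3.Axial Pool.Agent.Y437.AX

universe u

section enlarge

variable {F : Type u} [Field F] {A : Type u} [NonUnitalNonAssocCommRing A] [Module F A]
  [IsScalarTower F A A] [SMulCommClass F A A]

theorem eig_eq (a : A) (l : F) :
    eig F a l = Module.End.eigenspace (LinearMap.mulLeft F a) l := by
  ext v
  rw [Module.End.mem_eigenspace_iff]
  rfl

/-- An axis has no eigenvalues outside the law. -/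
theorem eig_bot {L : FusionLaw F} {a : A} (ha : IsAxis L a) {l : F} (hl : l ∉ L.carrier) :
    eig F a l = ⊥ := by
  have h1 := Module.End.eigenspaces_iSupIndep (LinearMap.mulLeft F a) l
  have h2 : (⊤ : Submodule F A) ≤ ⨆ j, ⨆ (_ : j ≠ l),
      Module.End.eigenspace (LinearMap.mulLeft F a) j := by
    rw [← ha.2.2.2.1]
    apply iSup_le
    intro m
    refine le_iSup_of_le m.1 (le_iSup_of_le ?_ ?_)
    · rintro rfl
      exact hl m.2
    · rw [eig_eq]
  rw [top_le_iff] at h2
  rw [h2, ← eig_eq] at h1
  exact disjoint_top.1 h1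

/-- The law with more eigenvalues, all new products being empty. -/
def enlarge (L : FusionLaw F) (C : Set F) (hC : L.carrier ⊆ C) : FusionLaw F where
  carrier := C
  star l m := {n | l ∈ L.carrier ∧ m ∈ L.carrier ∧ n ∈ L.star l m}
  one_mem := hC L.one_mem
  star_subset := fun l _ m _ _ hn => hC (L.star_subset l hn.1 m hn.2.1 hn.2.2)

theorem enlarge_seress {L : FusionLaw F} (hL : L.IsSeress) (C : Set F) (hC : L.carrier ⊆ C) :
    (enlarge L C hC).IsSeress :=
  ⟨hC hL.1, fun l _ => ⟨fun _ hn => (hL.2 l hn.2.1).1 hn.2.2,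
    fun _ hn => (hL.2 l hn.1).2.1 hn.2.2, fun _ hn => (hL.2 l hn.2.1).2.2.1 hn.2.2,
    fun _ hn => (hL.2 l hn.1).2.2.2 hn.2.2⟩⟩

theorem enlarge_axis {L : FusionLaw F} {a : A} (ha : IsAxis L a) (C : Set F)
    (hC : L.carrier ⊆ C) : IsAxis (enlarge L C hC) a := by
  refine ⟨ha.1, ha.2.1, ?_, ?_, ?_⟩
  · have h2 : (fun l : (enlarge L C hC).carrier => eig F a (l : F)) =
        (fun l : (enlarge L C hC).carrier =>
          Module.End.eigenspace (LinearMap.mulLeft F a) (l : F)) := by
      funext l
      exact eig_eq a _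
    rw [h2]
    exact (Module.End.eigenspaces_iSupIndep (LinearMap.mulLeft F a)).comp
      Subtype.val_injective
  · rw [eq_top_iff, ← ha.2.2.2.1]
    apply iSup_le
    intro m
    exact le_iSup_of_le (⟨m.1, hC m.2⟩ : C) le_rfl
  · intro l _ m _ u hu v hv
    by_cases hl : l ∈ L.carrier
    · by_cases hm : m ∈ L.carrier
      · have h1 := ha.2.2.2.2 l hl m hm u hu v hv
        have h2 : (⨆ n ∈ L.star l m, eig F a n) ≤
            ⨆ n ∈ (enlarge L C hC).star l m, eig F a n := by
          apply iSup_le
          intro n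
          apply iSup_le
          intro hn
          exact le_iSup_of_le n (le_iSup_of_le ⟨hl, hm, hn⟩ le_rfl)
        exact h2 h1
      · rw [eig_bot ha hm, Submodule.mem_bot] at hv
        rw [hv, mul_zero]
        exact zero_mem _
    · rw [eig_bot ha hl, Submodule.mem_bot] at hu
      rw [hu, zero_mul]
      exact zero_mem _

theorem enlarge_axial {L : FusionLaw F} {X : Set A} (h : IsPrimitiveAxial L X) (C : Set F)
    (hC : L.carrier ⊆ C) : IsPrimitiveAxial (enlarge L C hC) X :=
  ⟨fun a ha => ⟨enlarge_axis (h.1 a ha).1 C hC, (h.1 a ha).2⟩, h.2⟩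

/-- Without the eigenvalue `0` no two axes annihilate each other. -/
theorem complete {L : FusionLaw F} {X : Set A} (h0 : (0 : F) ∉ L.carrier)
    (h : IsPrimitiveAxial L X) : ∀ a ∈ X, ∀ b ∈ X, a * b ≠ 0 := by
  intro a ha b hb hab
  have h1 : b ∈ eig F a 0 := by
    change a * b = (0 : F) • b
    rw [hab, zero_smul]
  rw [eig_bot (h.1 a ha).1 h0, Submodule.mem_bot] at h1
  exact (h.1 b hb).1.1 h1

/-- A nonzero primitive axial algebra has an axis. -/
theorem nonempty {L : FusionLaw F} {X : Set A} (h : IsPrimitiveAxial L X)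
    (hA : Indecomposable F A) : X.Nonempty := by
  by_contra hX
  rw [Set.not_nonempty_iff_eq_empty] at hX
  haveI := hA.1
  have h1 : (⊥ : Submodule F A) = ⊤ := by
    apply h.2 ⊥
    · rw [hX]
      exact Set.empty_subset _
    · intro u hu v _
      rw [Submodule.mem_bot] at hu ⊢
      rw [hu, zero_mul]
  exact bot_ne_top h1

end enlarge

/-- The components of the disjoint union of complete graphs. -/
theorem comp_copies (ι : Type u) : Nonempty ((copiesK4 ι).ConnectedComponent ≃ ι) := by
  have key : ∀ (v w : ι × Fin 4), (copiesK4 ι).Walk v w → v.1 = w.1 := by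
    intro v w p
    induction p with
    | nil => rfl
    | cons h _ ih => exact h.1.trans ih
  refine ⟨⟨fun c => c.lift (fun v => v.1) (fun v w p _ => key v w p),
    fun i => (copiesK4 ι).connectedComponentMk (i, 0), ?_, ?_⟩⟩
  · intro c
    induction c using SimpleGraph.ConnectedComponent.ind with
    | _ v =>
      obtain ⟨i, k⟩ := v
      change (copiesK4 ι).connectedComponentMk (i, 0) = (copiesK4 ι).connectedComponentMk (i, k)
      rw [SimpleGraph.ConnectedComponent.eq]
      by_cases hk : (0 : Fin 4) = k
      · subst hk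
        exact SimpleGraph.Reachable.refl _
      · exact SimpleGraph.Adj.reachable ⟨rfl, hk⟩
  · intro i
    rfl

theorem comp_of_iso {V : Type u} {G : SimpleGraph V} {ι : Type u}
    (h : Nonempty (G ≃g copiesK4 ι)) : Nonempty (G.ConnectedComponent ≃ ι) := by
  obtain ⟨e⟩ := h
  obtain ⟨f⟩ := comp_copies ι
  exact ⟨e.connectedComponentEquiv.trans f⟩

theorem not_connected_of_iso {V : Type u} {G : SimpleGraph V} {ι : Type u} [Nontrivial ι]
    (h : Nonempty (G ≃g copiesK4 ι)) : ¬ G.Connected := by
  intro hc
  obtain ⟨f⟩ := comp_of_iso h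
  obtain ⟨i, j, hij⟩ := exists_pair_ne ι
  haveI : Subsingleton G.ConnectedComponent := hc.preconnected.subsingleton_connectedComponent
  exact hij (f.symm.injective (Subsingleton.elim _ _))

/-- The existence part, for every set of eigenvalues with `0`, `1` and one more. -/
theorem exist (F : Type u) [Field F] (C : Set F) (h1 : (1 : F) ∈ C) (h0 : (0 : F) ∈ C)
    (hC : ¬ C ⊆ {0, 1}) (ι : Type u) [hι : Nontrivial ι] :
    ∃ (L : FusionLaw F) (A : Type u) (_ : NonUnitalNonAssocCommRing A) (_ : Module F A)
      (_ : IsScalarTower F A A) (_ : SMulCommClass F A A) (X : Set A),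
      L.carrier = C ∧ L.IsSeress ∧ (Finite ι → Module.Finite F A ∧ X.Finite) ∧
        IsPrimitiveAxial L X ∧ Indecomposable F A ∧ Nonempty (graph X ≃g copiesK4 ι) ∧
        Nonempty ((graph X).ConnectedComponent ≃ ι) := by
  rw [Set.not_subset] at hC
  obtain ⟨x, hx, hx'⟩ := hC
  simp only [Set.mem_insert_iff, Set.mem_singleton_iff, not_or] at hx'
  obtain ⟨L, A, i1, i2, i3, i4, X, hL, hS, hfin, hax, hind, hiso⟩ :=
    Pool.Agent.Y437.AX1.h1 F x hx'.1 hx'.2 ι hι
  have hsub : L.carrier ⊆ C := by
    rw [hL]
    rintro y (rfl | rfl | rfl)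
    · exact h1
    · exact h0
    · exact hx
  exact ⟨enlarge L C hsub, A, i1, i2, i3, i4, X, rfl, enlarge_seress hS C hsub, hfin,
    enlarge_axial hax C hsub, hind, hiso, comp_of_iso hiso⟩

theorem connected_of_small (F : Type u) [Field F] (L : FusionLaw F) (A : Type u)
    [NonUnitalNonAssocCommRing A] [Module F A] [IsScalarTower F A A] [SMulCommClass F A A]
    (X : Set A) (hC : (0 : F) ∉ L.carrier ∨ L.carrier ⊆ {0, 1}) (h : IsPrimitiveAxial L X)
    (hA : Indecomposable F A) : (graph X).Connected := by
  rcases hC with hC | hC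
  · obtain ⟨a, ha⟩ := nonempty h hA
    haveI : Nonempty X := ⟨⟨a, ha⟩⟩
    refine SimpleGraph.Connected.mk (fun u v => ?_)
    by_cases huv : u = v
    · rw [huv]
    · exact SimpleGraph.Adj.reachable ⟨huv, complete hC h u.1 u.2 v.1 v.2⟩
  · obtain ⟨a, ha⟩ := Pool.Agent.Y151.AX2.h2 F L A X hC h hA
    subst ha
    haveI : Nonempty ({a} : Set A) := ⟨⟨a, rfl⟩⟩
    refine SimpleGraph.Connected.mk (fun u v => ?_)
    have : u = v := Subsingleton.elim _ _
    rw [this]

/-- **Connectedness of the non-annihilation graph, for every set of eigenvalues.**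

(1) For a field `F` and a set `C ⊆ F` with `1 ∈ C`: every indecomposable primitive axial algebra
with eigenvalue set `C` has a connected non-annihilation graph if and only if `0 ∉ C` or
`C ⊆ {0, 1}`.

(2) In all other cases the number of components is arbitrary: for every index type `ι` with at
least two elements (finite or of any infinite cardinality) there is an indecomposable primitive
axial algebra, for a Seress fusion law on exactly the set `C`, whose graph is the disjoint
union of `ι` copies of `K₄`; it is finite-dimensional with finitely many axes when `ι` is finite.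

(3) If `C ⊆ {0, 1}`, an indecomposable primitive axial algebra has exactly one axis.

(4) If `0 ∉ C`, the graph is complete.

(5) The connectedness statement holds for all indecomposable primitive axial algebras over a
field `F` if and only if `F` has exactly two elements. -/
theorem result :
    (∀ (F : Type u) [Field F] (C : Set F), (1 : F) ∈ C →
      ((∀ (L : FusionLaw F) (A : Type u) [NonUnitalNonAssocCommRing A] [Module F A]
        [IsScalarTower F A A] [SMulCommClass F A A] (X : Set A), L.carrier = C →
        IsPrimitiveAxial L X → Indecomposable F A → (graph X).Connected) ↔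
        ((0 : F) ∉ C ∨ C ⊆ {0, 1}))) ∧
    (∀ (F : Type u) [Field F] (C : Set F), (1 : F) ∈ C → (0 : F) ∈ C → ¬ C ⊆ {0, 1} →
      ∀ (ι : Type u) [Nontrivial ι],
      ∃ (L : FusionLaw F) (A : Type u) (_ : NonUnitalNonAssocCommRing A) (_ : Module F A)
        (_ : IsScalarTower F A A) (_ : SMulCommClass F A A) (X : Set A),
        L.carrier = C ∧ L.IsSeress ∧ (Finite ι → Module.Finite F A ∧ X.Finite) ∧
          IsPrimitiveAxial L X ∧ Indecomposable F A ∧ Nonempty (graph X ≃g copiesK4 ι) ∧
          Nonempty ((graph X).ConnectedComponent ≃ ι)) ∧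
    (∀ (F : Type u) [Field F] (L : FusionLaw F) (A : Type u)
      [NonUnitalNonAssocCommRing A] [Module F A] [IsScalarTower F A A] [SMulCommClass F A A]
      (X : Set A), L.carrier ⊆ {0, 1} → IsPrimitiveAxial L X → Indecomposable F A →
      ∃ a, X = {a}) ∧
    (∀ (F : Type u) [Field F] (L : FusionLaw F) (A : Type u)
      [NonUnitalNonAssocCommRing A] [Module F A] [IsScalarTower F A A] [SMulCommClass F A A]
      (X : Set A), (0 : F) ∉ L.carrier → IsPrimitiveAxial L X → ∀ a ∈ X, ∀ b ∈ X, a * b ≠ 0) ∧
    (∀ (F : Type u) [Field F],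
      ((∀ (L : FusionLaw F) (A : Type u) [NonUnitalNonAssocCommRing A] [Module F A]
        [IsScalarTower F A A] [SMulCommClass F A A] (X : Set A),
        IsPrimitiveAxial L X → Indecomposable F A → (graph X).Connected) ↔ Nat.card F = 2)) := by
  have main : ∀ (F : Type u) [Field F] (C : Set F), (1 : F) ∈ C →
      ((∀ (L : FusionLaw F) (A : Type u) [NonUnitalNonAssocCommRing A] [Module F A]
        [IsScalarTower F A A] [SMulCommClass F A A] (X : Set A), L.carrier = C →
        IsPrimitiveAxial L X → Indecomposable F A → (graph X).Connected) ↔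
        ((0 : F) ∉ C ∨ C ⊆ {0, 1})) := by
    intro F _ C h1
    constructor
    · intro h
      by_contra hcon
      push Not at hcon
      obtain ⟨L, A, i1, i2, i3, i4, X, hL, -, -, hax, hind, hiso, -⟩ :=
        exist F C h1 hcon.1 hcon.2 (ULift.{u} Bool)
      exact not_connected_of_iso hiso (h L A X hL hax hind)
    · intro hC L A _ _ _ _ X hL hax hind
      apply connected_of_small F L A X _ hax hind
      rwa [hL]
  refine ⟨main, fun F _ C h1 h0 hC ι _ => exist F C h1 h0 hC ι, ?_, ?_, ?_⟩
  · intro F _ L A _ _ _ _ X hC h hA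
    exact Pool.Agent.Y151.AX2.h2 F L A X hC h hA
  · intro F _ L A _ _ _ _ X h0 h
    exact complete h0 h
  · intro F _
    constructor
    · intro h
      have h2 := (main F Set.univ trivial).1
        (fun L A _ _ _ _ X _ hax hind => h L A X hax hind)
      have h3 : (Set.univ : Set F) ⊆ {0, 1} :=
        h2.resolve_left (fun h => h trivial)
      rw [Nat.card_eq_two_iff]
      exact ⟨0, 1, zero_ne_one, Set.eq_univ_of_univ_subset h3⟩
    · intro hF L A _ _ _ _ X hax hind
      apply connected_of_small F L A X _ hax hind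
      right
      intro y _
      rw [Nat.card_eq_two_iff' (0 : F)] at hF
      obtain ⟨z, hz, huniq⟩ := hF
      have hz1 : (1 : F) = z := huniq 1 one_ne_zero
      by_cases hy : y = 0
      · left; exact hy
      · right
        rw [Set.mem_singleton_iff, huniq y hy, hz1]

end Pool.Agent.Results.MP_8db76d_al.AnyNumberOfComponents
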